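import Pool.Agent.H8.DS.TarK
import Pool.Agent.H8.DS.TarG

/-! Board ds_modules (MP_81a758_an), module MODEL. -/

set_option autoImplicit false

namespace DS

open Set Data

namespace H35M

variable {C S : Type}

/-- the ends -/
def bo : Bool → ℝ
  | false => 0
  | true => 1

/-- the lines over the slit `s` -/
abbrev Idx (K : S → Finset (Lift S)) (s : S) := {k // k ∈ K s} × Bool

/-- the sign vector of a point -/
noncomputable def sv (X : Data C S) (K : S → Finset (Lift S)) (s : S) (t x : ℝ) :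
    Idx K s → SignType :=
  fun j => SignType.sign (x - X.q s j.1.1 (bo j.2) t)

/-- the condition on the sign vectors of the cells with a first interior lift -/
def First (X : Data C S) (K : S → Finset (Lift S)) (s : S) (σ : Idx K s → SignType)
    (k : {k // k ∈ K s}) : Prop :=
  σ (k, false) = 1 ∧ σ (k, true) = -1 ∧
    ∀ k' : {k // k ∈ K s}, σ (k', false) ≠ -1 → σ (k', true) ≠ 1 → X.hgt k.1 ≤ X.hgt k'.1

/-- the branches -/
def Br (X : Data C S) (K : S → Finset (Lift S)) : Type :=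
  {b : Σ s, (Idx K s → SignType) // ∃ k, First X K b.1 b.2 k}

/-- the chosen first lift -/
noncomputable def ka {X : Data C S} {K : S → Finset (Lift S)} (b : Br X K) :
    {k // k ∈ K b.1.1} := b.2.choose

theorem ka_spec {X : Data C S} {K : S → Finset (Lift S)} (b : Br X K) :
    First X K b.1.1 b.1.2 (ka b) := b.2.choose_spec

/-- the cells -/
def cell (X : Data C S) (K : S → Finset (Lift S)) (lo hi : ℝ) (s : S)
    (σ : Idx K s → SignType) : Set (ℝ × ℝ) :=
  {p | p.1 ∈ Ioo lo hi ∧ p.2 ∈ Ioo (0 : ℝ) 1 ∧ sv X K s p.1 p.2 = σ}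

theorem sign_comb {x y a b : ℝ} {σ : SignType} (hx : SignType.sign x = σ)
    (hy : SignType.sign y = σ) (ha : 0 ≤ a) (hb : 0 ≤ b) (hab : a + b = 1) :
    SignType.sign (a * x + b * y) = σ := by
  have h : 0 < a ∨ 0 < b := by
    by_contra hcon
    push Not at hcon
    linarith
  cases σ with
  | zero =>
    have h1 : x = 0 := sign_eq_zero_iff.1 hx
    have h2 : y = 0 := sign_eq_zero_iff.1 hy
    rw [h1, h2]
    simp
  | neg =>
    have h1 : x < 0 := sign_eq_neg_one_iff.1 hx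
    have h2 : y < 0 := sign_eq_neg_one_iff.1 hy
    apply sign_eq_neg_one_iff.2
    rcases h with h | h
    · nlinarith [mul_neg_of_pos_of_neg h h1, mul_nonneg hb (neg_nonneg.2 h2.le)]
    · nlinarith [mul_neg_of_pos_of_neg h h2, mul_nonneg ha (neg_nonneg.2 h1.le)]
  | pos =>
    have h1 : 0 < x := sign_eq_one_iff.1 hx
    have h2 : 0 < y := sign_eq_one_iff.1 hy
    apply sign_eq_one_iff.2
    rcases h with h | h
    · nlinarith [mul_pos h h1, mul_nonneg hb h2.le]
    · nlinarith [mul_pos h h2, mul_nonneg ha h1.le]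

theorem q_aff (X : Data C S) (s : S) (k : Lift S) (i t : ℝ) :
    X.q s k i t = (X.lft k + i * X.wid k - X.a (X.glue s)) / X.len (X.glue s) -
      (X.hgt k - X.b (X.glue s)) / X.len (X.glue s) * t := by
  unfold q
  ring

theorem cell_conv (X : Data C S) (K : S → Finset (Lift S)) (lo hi : ℝ) (s : S)
    (σ : Idx K s → SignType) : Convex ℝ (cell X K lo hi s σ) := by
  rintro ⟨t, x⟩ ⟨h1, h2, h3⟩ ⟨t', x'⟩ ⟨h1', h2', h3'⟩ a b ha hb hab
  refine ⟨?_, ?_, ?_⟩
  · exact convex_Ioo lo hi h1 h1' ha hb hab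
  · exact convex_Ioo (0 : ℝ) 1 h2 h2' ha hb hab
  · funext j
    have e1 := congrFun h3 j
    have e2 := congrFun h3' j
    simp only [sv] at e1 e2 ⊢
    have e3 := sign_comb e1 e2 ha hb hab
    have e4 : (a • ((t, x) : ℝ × ℝ) + b • ((t', x') : ℝ × ℝ)).2 -
        X.q s j.1.1 (bo j.2) (a • ((t, x) : ℝ × ℝ) + b • ((t', x') : ℝ × ℝ)).1 =
        a * (x - X.q s j.1.1 (bo j.2) t) + b * (x' - X.q s j.1.1 (bo j.2) t') := by
      rw [q_aff, q_aff, q_aff]
      simp only [Prod.snd_add, Prod.smul_snd, Prod.fst_add, Prod.smul_fst, smul_eq_mul]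
      have hb' : b = 1 - a := by linarith
      subst hb'
      ring
    rw [e4]
    exact e3

section main

variable {X : Data C S} {K : S → Finset (Lift S)} (hX : X.Surface) {t : ℝ} {s : S} {x : ℝ}
  (hK : ∀ k ∈ K s, X.comp k.1 = X.comp (X.glue s) ∧ X.b (X.glue s) < X.hgt k)

include hK in
theorem meets_iff (k : {k // k ∈ K s}) : X.Meets t s x k.1 ↔
    sv X K s t x (k, false) ≠ -1 ∧ sv X K s t x (k, true) ≠ 1 := by
  obtain ⟨h1, h2⟩ := hK k.1 k.2
  unfold Meets sv bo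
  simp only [ne_eq, sign_eq_neg_one_iff, sign_eq_one_iff, not_lt, sub_nonneg, sub_nonpos]
  exact ⟨fun h => h.2.2, fun h => ⟨h1, h2, h⟩⟩

include hK hX in
/-- the branch gives a first return -/
theorem hit_of_first [Finite S] (hU : X.Upper) (hFK : T_FIRSTK)
    (hM : ∀ ξ ∈ Ioo (0 : ℝ) 1, ∀ k, X.Meets t s ξ k → ∃ k' ∈ K s, X.hgt k' ≤ X.hgt k ∧
      X.Meets t s ξ k') (hx : x ∈ Ioo (0 : ℝ) 1) (k : {k // k ∈ K s})
    (hk : First X K s (sv X K s t x) k) :
    X.Hit t (s, x) (k.1.1, X.La s k.1 * x + (X.Lb s k.1 * t + X.Lc s k.1)) := by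
  rw [hFK C S X hX hU t s (K s) hK hM x hx]
  obtain ⟨h1, h2, h3⟩ := hk
  refine ⟨k.1, k.2, rfl, rfl, ?_, ?_, ?_⟩
  · have := sign_eq_one_iff.1 h1
    simpa [bo] using this
  · have := sign_eq_neg_one_iff.1 h2
    simpa [bo] using this
  · intro k' hk' hm
    obtain ⟨h4, h5⟩ := (meets_iff hK ⟨k', hk'⟩).1 hm
    exact h3 ⟨k', hk'⟩ h4 h5

include hK hX in
theorem first_of_hit [Finite S] (hU : X.Upper) (hFK : T_FIRSTK)
    (hM : ∀ ξ ∈ Ioo (0 : ℝ) 1, ∀ k, X.Meets t s ξ k → ∃ k' ∈ K s, X.hgt k' ≤ X.hgt k ∧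
      X.Meets t s ξ k') (hx : x ∈ Ioo (0 : ℝ) 1) {y' : S × ℝ} (h : X.Hit t (s, x) y') :
    ∃ k, First X K s (sv X K s t x) k := by
  rw [hFK C S X hX hU t s (K s) hK hM x hx] at h
  obtain ⟨k, hk, -, -, h1, h2, h3⟩ := h
  refine ⟨⟨k, hk⟩, ?_, ?_, ?_⟩
  · apply sign_eq_one_iff.2
    simpa [bo] using h1
  · apply sign_eq_neg_one_iff.2
    simpa [bo] using h2
  · intro k' h4 h5
    exact h3 k'.1 k'.2 ((meets_iff hK k').2 ⟨h4, h5⟩)

include hK hX in
/-- two first lifts have the same data -/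
theorem first_unique (hME : T_MEET) (hSLU : T_SLU) {k k' : {k // k ∈ K s}}
    (hk : First X K s (sv X K s t x) k) (hk' : First X K s (sv X K s t x) k') :
    k.1.1 = k'.1.1 ∧ X.lel k.1 = X.lel k'.1 := by
  have hh : X.hgt k.1 = X.hgt k'.1 := by
    apply le_antisymm
    · apply hk.2.2 k'
      · rw [hk'.1]
        decide
      · rw [hk'.2.1]
        decide
    · apply hk'.2.2 k
      · rw [hk.1]
        decide
      · rw [hk.2.1]
        decide
  have key : ∀ k : {k // k ∈ K s}, First X K s (sv X K s t x) k →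
      ∃ η ∈ Icc (0 : ℝ) 1, fwd t (X.pt (X.glue s) x) (X.hgt k.1 - X.b (X.glue s)) =
        act (X.lel k.1) (X.pt k.1.1 η) := by
    intro k hk
    obtain ⟨h1, h2⟩ := hK k.1 k.2
    obtain ⟨-, -, m1, m2, -, m3, -⟩ := hME C S X hX t s x k.1 h1 h2
    refine ⟨_, ⟨?_, ?_⟩, (m1 _).2 rfl⟩
    · rw [← m2]
      have := sign_eq_one_iff.1 hk.1
      simp only [bo] at this
      linarith
    · rw [← m3]
      have := sign_eq_neg_one_iff.1 hk.2.1
      simp only [bo] at this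
      linarith
  obtain ⟨η, hη, e1⟩ := key k hk
  obtain ⟨η', hη', e2⟩ := key k' hk'
  have hc : X.comp k.1.1 = X.comp k'.1.1 := ((hK k.1 k.2).1).trans ((hK k'.1 k'.2).1).symm
  have hd : X.lel k'.1 ∈ X.deck (X.comp k.1.1) := by
    rw [hc]
    exact ⟨k'.1.2, rfl⟩
  rw [hh] at e1
  obtain ⟨a1, a2, -⟩ := hSLU C S X hX k.1.1 k'.1.1 hc (X.lel k.1) ⟨k.1.2, rfl⟩ (X.lel k'.1) hd
    η hη η' hη' (e1.symm.trans e2)
  exact ⟨a1, a2⟩

end main

end H35M

open H35M

theorem pf_MODEL (hLF : T_LF) (hFK : T_FIRSTK) (hME : T_MEET) (hHD : T_HITD) (hSLU : T_SLU) :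
    T_MODEL := by
  classical
  intro C S _ X w hX hU hw t₀ ht₀
  obtain ⟨ε, hε, K, hK⟩ := hLF C S X w hX hU hw t₀ ht₀
  have hK1 : ∀ s, ∀ k ∈ K s, X.comp k.1 = X.comp (X.glue s) ∧ X.b (X.glue s) < X.hgt k :=
    fun s => (hK s).1
  have hK2 : ∀ t ∈ Ioo (t₀ - ε) (t₀ + ε), ∀ s, ∀ ξ ∈ Ioo (0 : ℝ) 1, ∀ k, X.Meets t s ξ k →
      ∃ k' ∈ K s, X.hgt k' ≤ X.hgt k ∧ X.Meets t s ξ k' := by
    intro t ht s
    exact (hK s).2 t (by rw [abs_lt]; constructor <;> linarith [ht.1, ht.2])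
  have hlen : ∀ s, 0 < X.len s := hX.pos
  -- the first return of a branch
  have hbr : ∀ (b : Br X K) (t x : ℝ), (t, x) ∈ cell X K (t₀ - ε) (t₀ + ε) b.1.1 b.1.2 →
      X.Hit t (b.1.1, x) ((ka b).1.1, X.La b.1.1 (ka b).1 * x +
        (X.Lb b.1.1 (ka b).1 * t + X.Lc b.1.1 (ka b).1)) := by
    intro b t x hb
    obtain ⟨h1, h2, h3⟩ := hb
    apply hit_of_first hX (hK1 b.1.1) hU hFK (hK2 t h1 b.1.1) h2
    rw [show sv X K b.1.1 t x = b.1.2 from h3]
    exact ka_spec b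
  have hdet : ∀ (b b' : Br X K) (t x : ℝ), b.1.1 = b'.1.1 →
      (t, x) ∈ cell X K (t₀ - ε) (t₀ + ε) b.1.1 b.1.2 →
      (t, x) ∈ cell X K (t₀ - ε) (t₀ + ε) b'.1.1 b'.1.2 → b = b' := by
    rintro ⟨⟨s, σ⟩, hb⟩ ⟨⟨s', σ'⟩, hb'⟩ t x hs h1 h2
    simp only at hs
    subst hs
    have e1 : sv X K s t x = σ := h1.2.2
    have e2 : sv X K s t x = σ' := h2.2.2
    apply Subtype.ext
    simp only
    rw [← e1, ← e2]
  let F : Fam S (Br X K) :=
    { lo := t₀ - ε
      hi := t₀ + ε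
      src := fun b => b.1.1
      tgt := fun b => (ka b).1.1
      D := fun b => cell X K (t₀ - ε) (t₀ + ε) b.1.1 b.1.2
      al := fun b => X.La b.1.1 (ka b).1
      be := fun b => X.Lb b.1.1 (ka b).1
      ga := fun b => X.Lc b.1.1 (ka b).1
      conv := fun b => cell_conv X K _ _ _ _
      al_pos := fun b => (hME C S X hX 0 b.1.1 0 (ka b).1 (hK1 _ _ (ka b).2).1
        (hK1 _ _ (ka b).2).2).1
      be_pos := fun b => (hME C S X hX 0 b.1.1 0 (ka b).1 (hK1 _ _ (ka b).2).1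
        (hK1 _ _ (ka b).2).2).2.1
      dom := fun b t x hb => ⟨hb.1, hb.2.1, (hbr b t x hb).2.1⟩
      det := hdet
      inj := by
        intro b b' t x x' ht hb hb' he
        have h1 := hbr b t x hb
        have h2 := hbr b' t x' hb'
        have h3 : ((ka b).1.1, X.La b.1.1 (ka b).1 * x +
            (X.Lb b.1.1 (ka b).1 * t + X.Lc b.1.1 (ka b).1)) = ((ka b').1.1,
            X.La b'.1.1 (ka b').1 * x' +
            (X.Lb b'.1.1 (ka b').1 * t + X.Lc b'.1.1 (ka b').1)) := Prod.ext ht he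
        rw [← h3] at h2
        have h4 := (hHD C S X hX t _ _ _).2 h1 h2
        have h5 : b.1.1 = b'.1.1 := congrArg Prod.fst h4
        have h6 : x = x' := congrArg Prod.snd h4
        subst h6
        exact hdet b b' t x h5 hb hb' }
  have hfinB : Finite (Br X K) := by
    unfold Br
    infer_instance
  let qs : (Σ s, Idx K s) ⊕ (S × Bool) → S := fun i => match i with
    | Sum.inl j => j.1
    | Sum.inr j => j.1
  let qa : (Σ s, Idx K s) ⊕ (S × Bool) → ℝ := fun i => match i with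
    | Sum.inl j => (X.hgt j.2.1.1 - X.b (X.glue j.1)) / X.len (X.glue j.1)
    | Sum.inr _ => 0
  let qb : (Σ s, Idx K s) ⊕ (S × Bool) → ℝ := fun i => match i with
    | Sum.inl j => (X.lft j.2.1.1 + bo j.2.2 * X.wid j.2.1.1 - X.a (X.glue j.1)) /
        X.len (X.glue j.1)
    | Sum.inr j => bo j.2
  have hsl : ∀ b : Br X K, X.La b.1.1 (ka b).1 * (X.len (ka b).1.1 / w (ka b).1.1) =
      X.len (X.glue b.1.1) / ((X.lel (ka b).1).1 * w (ka b).1.1) := by
    intro b
    have h1 := hlen (ka b).1.1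
    have h2 := hw.pos (ka b).1.1
    have h3 : 0 < (X.lel (ka b).1).1 := deck_pos X hX _ _ ⟨(ka b).1.2, rfl⟩
    unfold La
    field_simp
  have hgl : ∀ s, X.len (X.glue s) / w (X.glue s) = X.len s / w s := by
    intro s
    rw [div_eq_div_iff (hw.pos _).ne' (hw.pos _).ne']
    exact (hw.gl s).symm
  refine ⟨Br X K, (Σ s, Idx K s) ⊕ (S × Bool), hfinB, inferInstance,
    { F with
      qs := qs
      qa := qa
      qb := qb
      qa_nonneg := ?_
      end0 := fun s => ⟨Sum.inr (s, false), rfl, rfl, rfl⟩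
      end1 := fun s => ⟨Sum.inr (s, true), rfl, rfl, rfl⟩
      piece := ?_
      hit := ?_
      slope_flat := ?_
      slope_hopf := ?_
      stab := ?_ }, ?_⟩
  · rintro (j | j)
    · exact div_nonneg (sub_nonneg.2 (hK1 j.1 j.2.1.1 j.2.1.2).2.le) (hlen _).le
    · exact le_rfl
  · intro t ht s u v huv hsub hbr'
    have hconst : ∀ x ∈ Icc u v, sv X K s t x = sv X K s t u := by
      intro x hx
      funext j
      have h1 := hbr' (Sum.inl ⟨s, j⟩) rfl
      have h2 : qb (Sum.inl ⟨s, j⟩) - qa (Sum.inl ⟨s, j⟩) * t = X.q s j.1.1 (bo j.2) t :=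
        (q_aff X s j.1.1 (bo j.2) t).symm
      rw [h2] at h1
      change SignType.sign (x - X.q s j.1.1 (bo j.2) t) =
        SignType.sign (u - X.q s j.1.1 (bo j.2) t)
      rcases lt_or_ge (X.q s j.1.1 (bo j.2) t) u with h3 | h3
      · rw [sign_eq_one_iff.2 (by linarith [hx.1] : 0 < x - X.q s j.1.1 (bo j.2) t),
          sign_eq_one_iff.2 (by linarith : 0 < u - X.q s j.1.1 (bo j.2) t)]
      · have h4 : v < X.q s j.1.1 (bo j.2) t := by
          by_contra hcon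
          exact h1 ⟨h3, not_lt.1 hcon⟩
        rw [sign_eq_neg_one_iff.2 (by linarith [hx.2] : x - X.q s j.1.1 (bo j.2) t < 0),
          sign_eq_neg_one_iff.2 (by linarith : u - X.q s j.1.1 (bo j.2) t < 0)]
    by_cases hex : ∃ k, First X K s (sv X K s t u) k
    · left
      refine ⟨⟨⟨s, sv X K s t u⟩, hex⟩, rfl, fun x hx => ⟨ht, hsub hx, hconst x hx⟩⟩
    · right
      rintro ⟨⟨s', σ⟩, hb⟩ hs x hx hx'
      change s' = s at hs
      subst hs
      apply hex
      have h1 : sv X K s' t x = σ := hx'.2.2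
      rw [← hconst x hx, h1]
      exact hb
  · intro t ht y y'
    constructor
    · intro h
      have hy : y.2 ∈ Ioo (0 : ℝ) 1 := h.1
      have h' : X.Hit t (y.1, y.2) y' := h
      have hf := first_of_hit hX (hK1 y.1) hU hFK (hK2 t ht y.1) hy h'
      let b : Br X K := ⟨⟨y.1, sv X K y.1 t y.2⟩, hf⟩
      have hcell : (t, y.2) ∈ cell X K (t₀ - ε) (t₀ + ε) b.1.1 b.1.2 := ⟨ht, hy, rfl⟩
      have h2 := hbr b t y.2 hcell
      have h3 := (hHD C S X hX t _ _ _).1 h' h2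
      exact ⟨b, rfl, (congrArg Prod.fst h3).symm, hcell, congrArg Prod.snd h3⟩
    · rintro ⟨b, h1, h2, h3, h4⟩
      have h5 := hbr b t y.2 h3
      have e1 : ((b.1.1, y.2) : S × ℝ) = y := Prod.ext h1 rfl
      have e2 : ((ka b).1.1, X.La b.1.1 (ka b).1 * y.2 +
        (X.Lb b.1.1 (ka b).1 * t + X.Lc b.1.1 (ka b).1)) = y' := Prod.ext h2 h4.symm
      rw [e1, e2] at h5
      exact h5
  · intro b hb
    change ¬ X.Hopf (X.comp (X.glue b.1.1)) at hb
    change X.La b.1.1 (ka b).1 * (X.len (ka b).1.1 / w (ka b).1.1) = X.len b.1.1 / w b.1.1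
    have hc : X.comp (ka b).1.1 = X.comp (X.glue b.1.1) := (hK1 _ _ (ka b).2).1
    have h1 : (X.lel (ka b).1).1 = 1 :=
      deck_flat X hX (X.comp (ka b).1.1) (by rw [hc]; exact hb) _ ⟨(ka b).1.2, rfl⟩
    rw [hsl, h1, one_mul, ← hw.flat (X.glue b.1.1) (ka b).1.1 hc.symm hb, hgl]
  · intro b hb
    change X.Hopf (X.comp (X.glue b.1.1)) at hb
    change X.La b.1.1 (ka b).1 * (X.len (ka b).1.1 / w (ka b).1.1) < X.len b.1.1 / w b.1.1
    obtain ⟨hc, hh⟩ := hK1 _ _ (ka b).2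
    obtain ⟨l, hl⟩ : ∃ l, X.kind (X.comp (X.glue b.1.1)) = .hopf l := by
      unfold Hopf at hb
      cases hk : X.kind (X.comp (X.glue b.1.1)) with
      | flat e f =>
        rw [hk] at hb
        exact absurd hb (by simp [Comp.IsHopf])
      | hopf l => exact ⟨l, rfl⟩
    have hlel : X.lel (ka b).1 = (l ^ (ka b).1.2.1, 0, 0) := by
      unfold lel
      rw [hc, hl]
      rfl
    have hh' : X.b (X.glue b.1.1) < l ^ (ka b).1.2.1 * X.b (ka b).1.1 := by
      unfold hgt at hh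
      rw [hlel] at hh
      simpa using hh
    have h2 := hw.hopf (X.glue b.1.1) (ka b).1.1 l hc.symm hl _ hh'
    rw [hsl, hlel, ← hgl]
    exact div_lt_div_of_pos_left (hlen _) (hw.pos _) h2
  · intro b t x hb
    change (t, x) ∈ cell X K (t₀ - ε) (t₀ + ε) b.1.1 b.1.2 at hb
    obtain ⟨h1, h2, h3⟩ := hb
    change sv X K b.1.1 t x = b.1.2 at h3
    -- a radius for each line
    have hr : ∀ j : Idx K b.1.1, ∃ δ > 0, ∀ x', |x' - x| < δ →
        (b.1.2 j ≠ 0 → sv X K b.1.1 t x' j = b.1.2 j) := by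
      intro j
      have e1 : SignType.sign (x - X.q b.1.1 j.1.1 (bo j.2) t) = b.1.2 j := congrFun h3 j
      rcases lt_trichotomy (x - X.q b.1.1 j.1.1 (bo j.2) t) 0 with h | h | h
      · refine ⟨-(x - X.q b.1.1 j.1.1 (bo j.2) t), by linarith, fun x' hx' _ => ?_⟩
        rw [← e1, sign_eq_neg_one_iff.2 h]
        apply sign_eq_neg_one_iff.2
        have := (abs_lt.1 hx').2
        linarith
      · refine ⟨1, one_pos, fun x' _ hj => absurd ?_ hj⟩
        rw [← e1, h, sign_zero]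
      · refine ⟨x - X.q b.1.1 j.1.1 (bo j.2) t, h, fun x' hx' _ => ?_⟩
        rw [← e1, sign_eq_one_iff.2 h]
        apply sign_eq_one_iff.2
        have := (abs_lt.1 hx').1
        linarith
    choose δ hδ hδ2 using hr
    obtain ⟨δ', hδ', hδ'2⟩ : ∃ δ' > 0, ∀ j, δ' ≤ δ j := by
      have : Finite (Idx K b.1.1) := inferInstance
      rcases isEmpty_or_nonempty (Idx K b.1.1) with he | hne
      · exact ⟨1, one_pos, fun j => he.elim j⟩
      · obtain ⟨j0, hj0⟩ := Finite.exists_min δ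
        exact ⟨δ j0, hδ j0, hj0⟩
    refine ⟨min δ' (min x (1 - x)), lt_min hδ' (lt_min h2.1 (by linarith [h2.2])), ?_⟩
    intro x' hx'
    have hx1 : |x' - x| < δ' := hx'.trans_le (min_le_left _ _)
    have hx2 : |x' - x| < x := hx'.trans_le ((min_le_right _ _).trans (min_le_left _ _))
    have hx3 : |x' - x| < 1 - x := hx'.trans_le ((min_le_right _ _).trans (min_le_right _ _))
    have hx'01 : x' ∈ Ioo (0 : ℝ) 1 := by
      constructor
      · linarith [(abs_lt.1 hx2).1]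
      · linarith [(abs_lt.1 hx3).2]
    have hsame : ∀ j, b.1.2 j ≠ 0 → sv X K b.1.1 t x' j = b.1.2 j := fun j hj =>
      hδ2 j x' (hx1.trans_le (hδ'2 j)) hj
    obtain ⟨s1, s2, s3⟩ := ka_spec b
    have hfirst : First X K b.1.1 (sv X K b.1.1 t x') (ka b) := by
      refine ⟨?_, ?_, ?_⟩
      · rw [hsame _ (by rw [s1]; decide), s1]
      · rw [hsame _ (by rw [s2]; decide), s2]
      · intro k' h4 h5
        apply s3 k'
        · intro h6
          apply h4
          rw [hsame _ (by rw [h6]; decide), h6]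
        · intro h6
          apply h5
          rw [hsame _ (by rw [h6]; decide), h6]
    let b' : Br X K := ⟨⟨b.1.1, sv X K b.1.1 t x'⟩, ⟨ka b, hfirst⟩⟩
    obtain ⟨u1, u2⟩ := first_unique hX (hK1 b.1.1) hME hSLU (k := ka b') (k' := ka b)
      (ka_spec b') hfirst
    refine ⟨b', rfl, u1, ?_, ?_, ?_, ⟨h1, hx'01, rfl⟩⟩
    · change X.La b.1.1 (ka b').1 = X.La b.1.1 (ka b).1
      unfold La
      rw [u1, u2]
    · change X.Lb b.1.1 (ka b').1 = X.Lb b.1.1 (ka b).1
      unfold Lb hgt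
      rw [u1, u2]
    · change X.Lc b.1.1 (ka b').1 = X.Lc b.1.1 (ka b).1
      unfold Lc lft
      rw [u1, u2]
  · change t₀ ∈ Ioo (t₀ - ε) (t₀ + ε)
    constructor <;> linarith

end DS
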